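import Mathlib
import Pool.Agent.H.MP_cc2bbb_co.A

set_option autoImplicit false

namespace Pool.Agent.Results.MP_cc2bbb_co.Upper

open Finset Classical

/-- A dominating `(a : b)`-colouring. -/
def DomCol {V : Type} (G : SimpleGraph V) (a b : ℕ) (φ : V → Finset (Fin a)) : Prop :=
  (∀ v, #(φ v) = b) ∧ ∀ i v, i ∈ φ v ∨ ∃ u, G.Adj v u ∧ i ∈ φ u

theorem result (g : ℕ) (ε : ℝ) (hε : 0 < ε) :
    ∃ (V : Type) (_ : Fintype V) (G : SimpleGraph V), G.minDegree = 2 ∧ (g : ℕ∞) ≤ G.egirth ∧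
      ∀ (a b : ℕ) (φ : V → Finset (Fin a)), 0 < b → DomCol G a b φ →
        (a : ℝ) / b ≤ 5 / 2 + ε := by
  have h1 := min_le_left (1 / 2) (ε / 6)
  have h2 := min_le_right (1 / 2) (ε / 6)
  have h3 : 0 < min (1 / 2) (ε / 6) := by positivity
  obtain ⟨V, _, G, p, q, r⟩ := H.MP_cc2bbb_co.main g _ h3
  refine ⟨V, _, G, p, q, fun a b φ hb h => ?_⟩
  have := r a b φ h.1 h.2
  generalize min (1 / 2) (ε / 6) = δ at *
  have hb : (0 : ℝ) < b := Nat.cast_pos.2 hb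
  rw [div_le_iff₀ hb]
  refine le_of_mul_le_mul_right (this.trans ?_) (by linarith)
  rw [mul_right_comm, mul_comm]
  refine mul_le_mul_of_nonneg_right ?_ hb.le
  nlinarith

end Pool.Agent.Results.MP_cc2bbb_co.Upper
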